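import Pool.Agent.Helper81.PF.C6
import Pool.Agent.Helper98.PG.Real

/-!
Project PG (MP_b8862a_ag): a vector of level zero of an irreducible module with the levels `1, 0, -1` which is
killed by the root vectors of level one is zero.
-/

set_option linter.unusedSectionVars false

open Module LieModule LieAlgebra LieAlgebra.IsKilling MTP.MF PF PF.CC

namespace PG

variable {K : Type*} [Field K] [CharZero K] [IsAlgClosed K]
  {L : Type*} [LieRing L] [LieAlgebra K L] [FiniteDimensional K L] [IsKilling K L]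
  {H : LieSubalgebra K L} [H.IsCartanSubalgebra]
  {V : Type*} [AddCommGroup V] [Module K V] [FiniteDimensional K V]
  [LieRingModule L V] [LieModule K L V] {I : Type*} [Fintype I] (B : WB (V := V) H I) {D : H}

/-- The level of a bracket. -/
theorem lvl_lie {χ : H → K} {x : L} (hx : x ∈ rootSpace H χ) {u : V} {t : K} (hu : ⁅(D : L), u⁆ = t • u) :
    ⁅(D : L), ⁅x, u⁆⁆ = (χ D + t) • ⁅x, u⁆ := by
  have h1 : ⁅(D : L), x⁆ = χ D • x := lie_eq_smul_of_mem_rootSpace hx D
  rw [leibniz_lie, h1, hu, smul_lie, lie_smul, ← add_smul]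

theorem repr_eq_zero {u : V} {t : K} (hu : ⁅(D : L), u⁆ = t • u) {i : I} (hi : B.w i D ≠ t) :
    B.v.repr u i = 0 := by
  by_contra h
  exact hi (B.coord hu h)

theorem eq_zero_of_lvl {u : V} {t : K} (hu : ⁅(D : L), u⁆ = t • u) (ht : ∀ i, B.w i D ≠ t) : u = 0 := by
  rw [← B.v.repr.map_eq_zero_iff]
  ext i
  exact repr_eq_zero B hu (ht i)

/-- A functional with a non-zero vector in the root space, of non-zero value, is a root. -/
theorem exists_root {χ : H → K} {z : L} (hz : z ∈ rootSpace H χ) (h0 : z ≠ 0) (hχ : χ D ≠ 0) :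
    ∃ α : H.root, (α.1 : H → K) = χ := by
  have hne : rootSpace H χ ≠ ⊥ := by
    intro h
    rw [h, LieSubmodule.mem_bot] at hz
    exact h0 hz
  let ψ : Weight K H L := ⟨χ, hne⟩
  have hψ : ∀ h, ψ h = χ h := fun h => rfl
  have h1 : ψ ∈ H.root := by
    have h2 : ¬ ψ.IsZero := by
      intro h3
      have h4 : ψ D = 0 := congrFun h3 D
      rw [hψ] at h4
      exact hχ h4
    simpa [LieSubalgebra.root] using h2
  exact ⟨⟨ψ, h1⟩, rfl⟩

/-- **A vector of level zero killed by level one is zero.** -/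
theorem lowest (hw : ∀ i, Three (B.w i D)) (hrt : ∀ α : H.root, Three (α.1 D))
    (hirr : ∀ W : Submodule K V, (∀ x : L, ∀ u ∈ W, ⁅x, u⁆ ∈ W) → W = ⊥ ∨ W = ⊤)
    (hne : ∃ i, B.w i D = 1) {u : V} (hu : ⁅(D : L), u⁆ = 0)
    (h1 : ∀ α : H.root, α.1 D = 1 → ∀ z ∈ rootSpace H α.1, ⁅z, u⁆ = 0) : u = 0 := by
  classical
  let U : Submodule K V :=
    { carrier := {u | ⁅(D : L), u⁆ = (0 : K) • u ∧ ∀ χ : H → K, χ D = 1 → ∀ z ∈ rootSpace H χ, ⁅z, u⁆ = 0}
      add_mem' := by
        rintro a b ⟨ha, ha'⟩ ⟨hb, hb'⟩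
        refine ⟨by rw [lie_add, ha, hb]; simp, fun χ hχ z hz => ?_⟩
        rw [lie_add, ha' χ hχ z hz, hb' χ hχ z hz, add_zero]
      zero_mem' := ⟨by simp, fun χ hχ z hz => by simp⟩
      smul_mem' := by
        rintro c a ⟨ha, ha'⟩
        refine ⟨by rw [lie_smul, ha]; simp, fun χ hχ z hz => ?_⟩
        rw [lie_smul, ha' χ hχ z hz, smul_zero] }
  have hU0 : ∀ u ∈ U, ⁅(D : L), u⁆ = (0 : K) • u := fun u hu => hu.1
  have hU1 : ∀ u ∈ U, ∀ χ : H → K, χ D = 1 → ∀ z ∈ rootSpace H χ, ⁅z, u⁆ = 0 := fun u hu => hu.2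
  have hUs : ∀ u ∈ U, ∀ χ : H → K, χ D = 0 → ∀ x ∈ rootSpace H χ, ⁅x, u⁆ ∈ U := by
    intro u hu χ hχ x hx
    refine ⟨?_, fun ψ hψ z hz => ?_⟩
    · rw [lvl_lie hx (hU0 u hu), hχ, add_zero]
    · rw [leibniz_lie, hU1 u hu ψ hψ z hz, lie_zero, add_zero]
      refine hU1 u hu (ψ + χ) (by rw [Pi.add_apply, hψ, hχ, add_zero]) _ ?_
      exact lie_mem_genWeightSpace_of_mem_genWeightSpace hz hx
  obtain ⟨U', hU'⟩ : ∃ U' : Submodule K V, U' = Submodule.span K
    {w | ∃ χ : H → K, χ D = -1 ∧ ∃ y ∈ rootSpace H χ, ∃ u ∈ U, ⁅y, u⁆ = w} := ⟨_, rfl⟩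
  have hgen : ∀ χ : H → K, χ D = -1 → ∀ y ∈ rootSpace H χ, ∀ u ∈ U, ⁅y, u⁆ ∈ U' := by
    intro χ hχ y hy u hu
    rw [hU']
    exact Submodule.subset_span ⟨χ, hχ, y, hy, u, hu, rfl⟩
  have hU'1 : ∀ u ∈ U', ⁅(D : L), u⁆ = (-1 : K) • u := by
    intro u hu
    rw [hU'] at hu
    induction hu using Submodule.span_induction with
    | mem w hw =>
      obtain ⟨χ, hχ, y, hy, u, hu, rfl⟩ := hw
      rw [lvl_lie hy (hU0 u hu), hχ, add_zero]
    | zero => simp
    | add a b _ _ ha hb => rw [lie_add, ha, hb, smul_add]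
    | smul c a _ ha => rw [lie_smul, ha, smul_comm]
  have hW : ∀ x : L, ∀ u ∈ U ⊔ U', ⁅x, u⁆ ∈ U ⊔ U' := by
    intro x
    let X : Submodule K L :=
      { carrier := {x | ∀ u ∈ U ⊔ U', ⁅x, u⁆ ∈ U ⊔ U'}
        add_mem' := by
          intro a b ha hb u hu
          rw [add_lie]
          exact add_mem (ha u hu) (hb u hu)
        zero_mem' := by
          intro u hu
          rw [zero_lie]
          exact zero_mem _
        smul_mem' := by
          intro c a ha u hu
          rw [smul_lie]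
          exact Submodule.smul_mem _ _ (ha u hu) }
    refine root_induction (U := X) (H := H) ?_ x
    intro α z hz
    change ∀ u ∈ U ⊔ U', ⁅z, u⁆ ∈ U ⊔ U'
    have hα : Three (α D) := by
      by_cases h0 : α.IsZero
      · left
        exact congrFun h0 D
      · exact hrt ⟨α, by simpa [LieSubalgebra.root] using h0⟩
    have hz1 : ∀ u ∈ U, ⁅z, u⁆ ∈ U ⊔ U' := by
      intro u hu
      rcases hα with h2 | h2 | h2
      · exact Submodule.mem_sup_left (hUs u hu α h2 z hz)
      · rw [hU1 u hu α h2 z hz]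
        exact zero_mem _
      · exact Submodule.mem_sup_right (hgen α h2 z hz u hu)
    have hz2 : ∀ u ∈ U', ⁅z, u⁆ ∈ U ⊔ U' := by
      rcases hα with h2 | h2 | h2
      · intro u hu
        rw [hU'] at hu
        induction hu using Submodule.span_induction with
        | mem w hw =>
          obtain ⟨χ, hχ, y, hy, u, hu, rfl⟩ := hw
          rw [leibniz_lie]
          refine add_mem (Submodule.mem_sup_right (hgen (α + χ) ?_ _ ?_ u hu))
            (Submodule.mem_sup_right (hgen χ hχ y hy _ (hUs u hu α h2 z hz)))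
          · rw [Pi.add_apply, h2, hχ, zero_add]
          · exact lie_mem_genWeightSpace_of_mem_genWeightSpace hz hy
        | zero => rw [lie_zero]; exact zero_mem _
        | add a b _ _ ha hb => rw [lie_add]; exact add_mem ha hb
        | smul c a _ ha => rw [lie_smul]; exact Submodule.smul_mem _ _ ha
      · intro u hu
        rw [hU'] at hu
        induction hu using Submodule.span_induction with
        | mem w hw =>
          obtain ⟨χ, hχ, y, hy, u, hu, rfl⟩ := hw
          rw [leibniz_lie, hU1 u hu α h2 z hz, lie_zero, add_zero]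
          refine Submodule.mem_sup_left (hUs u hu (α + χ) ?_ _ ?_)
          · rw [Pi.add_apply, h2, hχ, add_neg_cancel]
          · exact lie_mem_genWeightSpace_of_mem_genWeightSpace hz hy
        | zero => rw [lie_zero]; exact zero_mem _
        | add a b _ _ ha hb => rw [lie_add]; exact add_mem ha hb
        | smul c a _ ha => rw [lie_smul]; exact Submodule.smul_mem _ _ ha
      · intro u hu
        have h3 : ⁅z, u⁆ = 0 := by
          refine eq_zero_of_lvl B (lvl_lie hz (hU'1 u hu)) fun i hi => ?_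
          have h4 := hw i
          rw [hi, h2] at h4
          rcases h4 with h4 | h4 | h4
          · have h5 : (-2 : K) = 0 := by linear_combination h4
            norm_num at h5
          · have h5 : (-3 : K) = 0 := by linear_combination h4
            norm_num at h5
          · have h5 : (-1 : K) = 0 := by linear_combination h4
            norm_num at h5
        rw [h3]
        exact zero_mem _
    intro u hu
    obtain ⟨a, ha, b, hb, rfl⟩ := Submodule.mem_sup.1 hu
    rw [lie_add]
    exact add_mem (hz1 a ha) (hz2 b hb)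
  have huU : u ∈ U := by
    refine ⟨by rw [hu, zero_smul], fun χ hχ z hz => ?_⟩
    by_cases hz0 : z = 0
    · rw [hz0, zero_lie]
    · obtain ⟨α, hα⟩ := exists_root hz hz0 (by rw [hχ]; exact one_ne_zero)
      refine h1 α ?_ z ?_
      · rw [hα, hχ]
      · rw [hα]
        exact hz
  rcases hirr _ hW with h | h
  · have h2 : u ∈ U ⊔ U' := Submodule.mem_sup_left huU
    rw [h, Submodule.mem_bot] at h2
    exact h2
  · exfalso
    obtain ⟨i, hi⟩ := hne
    have h2 : B.v i ∈ U ⊔ U' := by rw [h]; trivial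
    obtain ⟨a, ha, b, hb, hab⟩ := Submodule.mem_sup.1 h2
    have h3 := congrArg (fun v => B.v.repr v i) hab
    simp only [map_add, Finsupp.add_apply, Basis.repr_self, Finsupp.single_eq_same] at h3
    rw [repr_eq_zero B (hU0 a ha) (by rw [hi]; exact one_ne_zero),
      repr_eq_zero B (hU'1 b hb) (by
        rw [hi]
        intro h4
        have h5 : (2 : K) = 0 := by linear_combination h4
        norm_num at h5), add_zero] at h3
    exact zero_ne_one h3

end PG
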