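import Pool.Agent.Helper81.PG.Low
import Pool.Agent.Helper2.PG.Bound
import Pool.Agent.Helper3.PF.LPrime

/-!
Project PG (MP_b8862a_ag), `s = 3`: the configuration `C_3`. The number of weights of level zero is `6`, `8` or `9`.
-/

set_option linter.unusedSectionVars false

open Module LieModule LieAlgebra LieAlgebra.IsKilling MTP.MF PF PF.CC

namespace PG

section euclid

variable {E : Type*} [NormedAddCommGroup E] [InnerProductSpace ℝ E] {Φ X : Finset E} {ℓ : E → ℝ} {ν : ℕ → E} {a : ℝ}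

/-- The configuration `C_3`. -/
structure CfC3 (Φ : Finset E) (ℓ : E → ℝ) (ν : ℕ → E) (a : ℝ) : Prop where
  pos : 0 < a
  gram : ∀ i < 3, ∀ j < 3, inner ℝ (ν i) (ν j) = if i = j then 2 * a else a
  mem : ∀ i < 3, ν i ∈ Φ
  one : ∀ y ∈ Φ, ℓ y = 1 → ∃ i < 3, y = ν i ∨ y = ν 0 + ν 1 + ν 2 - (2 : ℝ) • ν i
  zero : ∀ y ∈ Φ, ℓ y = 0 → ∃ i < 3, ∃ j < 3, i ≠ j ∧ y = ν i - ν j

variable (hc : CfC3 Φ ℓ ν a)

include hc

theorem CfC3.self {i : ℕ} (hi : i < 3) : inner ℝ (ν i) (ν i) = 2 * a := by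
  rw [hc.gram i hi i hi, if_pos rfl]

theorem CfC3.sig {i : ℕ} (hi : i < 3) : inner ℝ (ν i) (ν 0 + ν 1 + ν 2) = 4 * a := by
  rw [inner_add_right, inner_add_right, hc.gram i hi 0 (by norm_num), hc.gram i hi 1 (by norm_num),
    hc.gram i hi 2 (by norm_num)]
  interval_cases i <;> norm_num <;> ring

theorem CfC3.sig_sig : inner ℝ (ν 0 + ν 1 + ν 2) (ν 0 + ν 1 + ν 2) = 12 * a := by
  rw [inner_add_left, inner_add_left, hc.sig (by norm_num : 0 < 3), hc.sig (by norm_num : 1 < 3),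
    hc.sig (by norm_num : 2 < 3)]
  ring

theorem CfC3.long {i : ℕ} (hi : i < 3) :
    inner ℝ (ν 0 + ν 1 + ν 2 - (2 : ℝ) • ν i) (ν 0 + ν 1 + ν 2 - (2 : ℝ) • ν i) = 4 * a := by
  rw [inner_sub_left, inner_sub_right, inner_sub_right, inner_smul_left, inner_smul_right, inner_smul_left,
    inner_smul_right, hc.sig_sig, hc.sig hi, hc.self hi, real_inner_comm, hc.sig hi]
  simp
  ring

theorem CfC3.inner_long {p i : ℕ} (hp : p < 3) (hi : i < 3) :
    inner ℝ (ν p) (ν 0 + ν 1 + ν 2 - (2 : ℝ) • ν i) = if p = i then 0 else 2 * a := by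
  rw [inner_sub_right, inner_smul_right, hc.sig hp, hc.gram p hp i hi]
  split_ifs <;> ring

theorem CfC3.inner_sub {p q r : ℕ} (hp : p < 3) (hq : q < 3) (hr : r < 3) :
    inner ℝ (ν p - ν q) (ν r) = (if p = r then a else 0) - (if q = r then a else 0) := by
  rw [inner_sub_left, hc.gram p hp r hr, hc.gram q hq r hr]
  split_ifs <;> ring

theorem CfC3.sub_self {p q : ℕ} (hp : p < 3) (hq : q < 3) (hpq : p ≠ q) :
    inner ℝ (ν p - ν q) (ν p - ν q) = 2 * a := by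
  rw [inner_sub_right, hc.inner_sub hp hq hp, hc.inner_sub hp hq hq]
  rw [if_pos rfl, if_pos rfl, if_neg hpq, if_neg (Ne.symm hpq)]
  ring

theorem CfC3.inj {p q : ℕ} (hp : p < 3) (hq : q < 3) (h : ν p = ν q) : p = q := by
  by_contra hne
  have h1 := hc.gram p hp q hq
  rw [if_neg hne, ← h, hc.self hp] at h1
  have := hc.pos
  linarith

theorem CfC3.sub_ne {p q : ℕ} (hp : p < 3) (hq : q < 3) (hpq : p ≠ q) : ν p - ν q ≠ 0 := by
  intro h
  have h1 := hc.sub_self hp hq hpq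
  rw [h, inner_zero_left] at h1
  have := hc.pos
  linarith

theorem CfC3.sub_inj {p q p' q' : ℕ} (hp : p < 3) (hq : q < 3) (hp' : p' < 3) (hq' : q' < 3) (hpq : p ≠ q)
    (h : ν p - ν q = ν p' - ν q') : p = p' ∧ q = q' := by
  have ha := hc.pos
  have h1 := hc.inner_sub hp hq hp
  have h2 := hc.inner_sub hp hq hq
  rw [h, hc.inner_sub hp' hq' hp, if_pos rfl, if_neg (Ne.symm hpq)] at h1
  rw [h, hc.inner_sub hp' hq' hq, if_neg hpq, if_pos rfl] at h2
  constructor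
  · by_contra h3
    rw [if_neg (Ne.symm h3)] at h1
    split_ifs at h1 <;> linarith
  · by_contra h3
    rw [if_neg (Ne.symm h3)] at h2
    split_ifs at h2 <;> linarith

/-- Norms of roots. -/
theorem CfC3.norm (hΦ : RS Φ) (hneg : ∀ y, ℓ (-y) = -ℓ y)
    (hlev : ∀ y ∈ Φ, ℓ y = 0 ∨ ℓ y = 1 ∨ ℓ y = -1) {y : E} (hy : y ∈ Φ) :
    2 * a ≤ inner ℝ y y ∧ inner ℝ y y ≤ 4 * a := by
  have ha := hc.pos
  have h1 : ∀ z ∈ Φ, ℓ z = 1 → 2 * a ≤ inner ℝ z z ∧ inner ℝ z z ≤ 4 * a := by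
    intro z hz hz1
    obtain ⟨i, hi, h | h⟩ := hc.one z hz hz1
    · rw [h, hc.self hi]
      constructor <;> linarith
    · rw [h, hc.long hi]
      constructor <;> linarith
  rcases hlev y hy with h | h | h
  · obtain ⟨i, hi, j, hj, hij, h2⟩ := hc.zero y hy h
    rw [h2, hc.sub_self hi hj hij]
    constructor <;> linarith
  · exact h1 y hy h
  · have h2 := h1 (-y) (hΦ.neg_mem hy) (by rw [hneg, h, neg_neg])
    rwa [inner_neg_neg] at h2

end euclid

/-- An integral pairing is bounded by norms. -/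
theorem int_le_two {E : Type*} [NormedAddCommGroup E] [InnerProductSpace ℝ E] {y x : E} {a : ℝ} (ha : 0 < a)
    (hy : 2 * a ≤ inner ℝ y y) (hx : inner ℝ x x ≤ 4 * a) {k : ℤ} (hk : co y x = k) : |k| ≤ 2 := by
  have h0 : (0 : ℝ) < inner ℝ y y := by linarith
  have h1 : (k : ℝ) * inner ℝ y y = 2 * inner ℝ x y := by
    rw [← hk]
    unfold co
    field_simp
  have h2 : (inner ℝ x y : ℝ) * inner ℝ x y ≤ inner ℝ x x * inner ℝ y y := real_inner_mul_inner_self_le x y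
  have h3 : (k : ℝ) ^ 2 * inner ℝ y y ≤ 4 * inner ℝ x x := by
    have h4 : ((k : ℝ) ^ 2 * inner ℝ y y) * inner ℝ y y ≤ (4 * inner ℝ x x) * inner ℝ y y := by
      have h5 : ((k : ℝ) ^ 2 * inner ℝ y y) * inner ℝ y y = ((k : ℝ) * inner ℝ y y) ^ 2 := by ring
      rw [h5, h1]
      nlinarith
    exact le_of_mul_le_mul_right h4 h0
  have h4 : (k : ℝ) ^ 2 < 9 := by
    by_contra h5
    push Not at h5
    nlinarith
  have h5 : k ^ 2 < 9 := by exact_mod_cast h4
  rw [abs_le]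
  constructor <;> nlinarith

end PG
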