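import Pool.Agent.Helper81.PG.C3

/-!
Project PG (MP_b8862a_ag), `s = 3`: the configuration `C_3`. The number of weights of level zero is `6`, `8` or `9`.
-/

set_option linter.unusedSectionVars false

open Module LieModule LieAlgebra LieAlgebra.IsKilling MTP.MF PF PF.CC

namespace PG

variable {K : Type*} [Field K] [CharZero K] [IsAlgClosed K]
  {L : Type*} [LieRing L] [LieAlgebra K L] [FiniteDimensional K L] [IsKilling K L]
  {H : LieSubalgebra K L} [H.IsCartanSubalgebra]
  {V : Type*} [AddCommGroup V] [Module K V] [FiniteDimensional K V]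
  [LieRingModule L V] [LieModule K L V] {I : Type*} [Fintype I] (B : WB (V := V) H I) {D : H}
  {ω : LinearMap.BilinForm K V} {ℓ : EuclideanSpace ℝ H.root →ₗ[ℝ] ℝ} {ν : ℕ → EuclideanSpace ℝ H.root} {a : ℝ}

/-- The data. -/
structure C3D (B : WB (V := V) H I) (D : H) (ℓ : EuclideanSpace ℝ H.root →ₗ[ℝ] ℝ)
    (ν : ℕ → EuclideanSpace ℝ H.root) (a : ℝ) : Prop where
  lev : IsLev D ℓ
  hw : ∀ i, Three (B.w i D)
  hrt : ∀ α : H.root, Three (α.1 D)
  irr : ∀ W : Submodule K V, (∀ x : L, ∀ u ∈ W, ⁅x, u⁆ ∈ W) → W = ⊥ ∨ W = ⊤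
  rs : RS (Ph (rootSystem H))
  sat : Sat (Ph (rootSystem H)) (Xw B)
  c3 : CfC3 (Ph (rootSystem H)) ℓ ν a
  one : ∀ i, B.w i D = 1 → ∃ j < 3, vec (wt B i) = ν j
  ex : ∀ j < 3, ∃ i, B.w i D = 1 ∧ vec (wt B i) = ν j
  card : Nat.card {i // B.w i D = 1} = 3

variable {B}

theorem C3D.one_one (h : C3D B D ℓ ν a) {i : I} (hi : B.w i D = 1) : One B i := by
  classical
  have h1 : ∀ i : {i // B.w i D = 1}, ∃ j : Fin 3, vec (wt B i) = ν j := by
    rintro ⟨i, hi⟩
    obtain ⟨j, hj, h2⟩ := h.one i hi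
    exact ⟨⟨j, hj⟩, h2⟩
  choose f hf using h1
  have h2 : Function.Surjective f := by
    rintro ⟨j, hj⟩
    obtain ⟨i, hi, hi'⟩ := h.ex j hj
    refine ⟨⟨i, hi⟩, Fin.ext ?_⟩
    refine h.c3.inj (f ⟨i, hi⟩).2 hj ?_
    rw [← hf, hi']
  have h3 : Function.Injective f := by
    have h4 : Nat.card {i // B.w i D = 1} = Nat.card (Fin 3) := by
      rw [h.card, Nat.card_eq_fintype_card, Fintype.card_fin]
    exact ((Nat.bijective_iff_surjective_and_card f).2 ⟨h2, h4⟩).1
  intro j hj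
  have hj1 : B.w j D = 1 := by rw [hj, hi]
  have h5 : f ⟨j, hj1⟩ = f ⟨i, hi⟩ := by
    apply Fin.ext
    refine h.c3.inj (f _).2 (f _).2 ?_
    rw [← hf, ← hf]
    have h6 : wt B j = wt B i := by
      funext β
      have h7 : ((wt B j β : ℤ) : K) = (wt B i β : K) := by rw [← wt_spec, ← wt_spec, hj]
      exact_mod_cast h7
    change vec (wt B j) = vec (wt B i)
    rw [h6]
  exact congrArg Subtype.val (h3 h5)

theorem C3D.mem_one (h : C3D B D ℓ ν a) {i : I} {p : ℕ} (hp : p < 3) (hi : vec (wt B i) = ν p) : B.w i D = 1 := by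
  obtain ⟨j, hj, hj'⟩ := h.ex p hp
  have h1 : B.w i = B.w j := w_ext B (by rw [hi, hj'])
  rw [h1, hj]

theorem C3D.lev_nu (h : C3D B D ℓ ν a) {p : ℕ} (hp : p < 3) : ℓ (ν p) = 1 := by
  obtain ⟨j, hj, hj'⟩ := h.ex p hp
  have h1 := h.lev.weight B (i := j) (k := 1) (by rw [hj, Int.cast_one])
  rw [hj', Int.cast_one] at h1
  exact h1

/-- The root `ν p`. -/
theorem C3D.exists_al (h : C3D B D ℓ ν a) {p : ℕ} (hp : p < 3) :
    ∃ α : H.root, vec (rt (rootSystem H) α) = ν p ∧ α.1 D = 1 := by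
  obtain ⟨α, hα⟩ := (mem_Ph _).1 (h.c3.mem p hp)
  refine ⟨α, hα, ?_⟩
  obtain ⟨j, hj, hj'⟩ := h.ex p hp
  rw [← w_root B (i := j) (by rw [hj', hα]) D, hj]

/-- The weights of level zero. -/
theorem C3D.level_zero (h : C3D B D ℓ ν a) {i0 : I} (hi0 : B.w i0 D = 0) :
    vec (wt B i0) = 0 ∨ ∃ p < 3, ∃ q < 3, p ≠ q ∧ vec (wt B i0) = ν p - ν q := by
  classical
  obtain ⟨j0, hj0, -⟩ := h.ex 0 (by norm_num)
  have h1 : ¬ ∀ α : H.root, α.1 D = 1 → ∀ z ∈ rootSpace H α.1, ⁅z, B.v i0⁆ = 0 := by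
    intro hcon
    refine B.v.ne_zero i0 (lowest B h.hw h.hrt h.irr ⟨j0, hj0⟩ ?_ hcon)
    rw [B.lie_v, hi0, zero_smul]
  push Not at h1
  obtain ⟨α, hα, z, hz, hz0⟩ := h1
  have hi0' : IsW H (fun h => B.w i0 h) (B.v i0) := B.lie_v i0
  obtain ⟨i, hi⟩ := (hi0'.lie hz).index B hz0
  have hi' : ∀ x : H, B.w i x = B.w i0 x + ((1 : ℤ) : K) * α.1 x := by
    intro x
    rw [hi x]
    change α.1 x + B.w i0 x = _
    push_cast
    ring
  have h2 := wt_of B hi'
  rw [one_smul] at h2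
  have h3 : vec (wt B i) = vec (wt B i0) + vec (rt (rootSystem H) α) := by rw [h2, vec_add]
  have hiD : B.w i D = 1 := by
    rw [hi' D, hi0, hα]
    push_cast
    ring
  obtain ⟨p, hp, hp'⟩ := h.one i hiD
  have hg : vec (rt (rootSystem H) α) ∈ Ph (rootSystem H) := (mem_Ph _).2 ⟨α, rfl⟩
  have hg1 : ℓ (vec (rt (rootSystem H) α)) = 1 := by
    have h4 := h.lev.root (α := α) (k := 1) (by rw [hα, Int.cast_one])
    rw [h4, Int.cast_one]
  have hx : vec (wt B i0) = ν p - vec (rt (rootSystem H) α) := by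
    rw [← hp', h3]
    abel
  have hx0 : ℓ (vec (wt B i0)) = 0 := by
    rw [hx, map_sub, h.lev_nu hp, hg1, sub_self]
  obtain ⟨q, hq, h4 | h4⟩ := h.c3.one _ hg hg1
  · by_cases hpq : p = q
    · left
      rw [hx, h4, hpq, sub_self]
    · right
      exact ⟨p, hp, q, hq, hpq, by rw [hx, h4]⟩
  · by_cases hpq : p = q
    · exfalso
      have h5 := sat_refl h.rs h.sat hg ((mem_Xw B).2 ⟨i0, rfl⟩)
      have h6 : co (vec (rt (rootSystem H) α)) (vec (wt B i0)) = -2 := by
        have h7 := h.c3.long hq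
        have h8 := h.c3.inner_long hp hq
        rw [if_pos hpq, ← h4] at h8
        rw [← h4] at h7
        have h9 : (0 : ℝ) < inner ℝ (vec (rt (rootSystem H) α)) (vec (rt (rootSystem H) α)) :=
          h.rs.inner_pos hg
        unfold co
        rw [hx, inner_sub_left, h8]
        field_simp
        ring
      rw [h6] at h5
      have h7 := h.lev.lev_X B h.hw h5
      rw [map_sub, map_smul, hx0, hg1] at h7
      rcases h7 with h7 | h7 | h7 <;> norm_num at h7
    · right
      have h5 : ∃ r < 3, q ≠ r ∧ ν 0 + ν 1 + ν 2 = ν p + ν q + ν r := by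
        interval_cases p <;> interval_cases q
        · exact absurd rfl hpq
        · exact ⟨2, by norm_num, by norm_num, by abel⟩
        · exact ⟨1, by norm_num, by norm_num, by abel⟩
        · exact ⟨2, by norm_num, by norm_num, by abel⟩
        · exact absurd rfl hpq
        · exact ⟨0, by norm_num, by norm_num, by abel⟩
        · exact ⟨1, by norm_num, by norm_num, by abel⟩
        · exact ⟨0, by norm_num, by norm_num, by abel⟩
        · exact absurd rfl hpq
      obtain ⟨r, hr, hqr, h6⟩ := h5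
      refine ⟨q, hq, r, hr, hqr, ?_⟩
      rw [hx, h4, h6, two_smul]
      abel

/-- The weight `ν p - ν q`. -/
theorem C3D.exists_pq (h : C3D B D ℓ ν a) {p q : ℕ} (hp : p < 3) (hq : q < 3) (hpq : p ≠ q) :
    ∃ i, vec (wt B i) = ν p - ν q ∧ B.w i D = 0 ∧ One B i := by
  obtain ⟨j, hj, hj'⟩ := h.ex p hp
  obtain ⟨α, hα, hαD⟩ := h.exists_al hq
  have ha := h.c3.pos
  have hco : co (ν q) (ν p) = 1 := by
    unfold co
    rw [h.c3.gram p hp q hq, if_neg hpq, h.c3.self hq]
    field_simp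
  have h1 := h.sat.str (ν q) (h.c3.mem q hq) (ν p) ((mem_Xw B).2 ⟨j, hj'⟩) 1 (by rw [hco]; norm_num)
  rw [Nat.cast_one, one_smul] at h1
  obtain ⟨i, hi⟩ := (mem_Xw B).1 h1
  have h2 : ∀ x : H, B.w i x = B.w j x - α.1 x := fun x => w_sub B (by rw [hi, hj', hα]) x
  refine ⟨i, hi, by rw [h2, hj, hαD, sub_self], one_of B α (i := j) h2 ?_ (h.one_one hj)⟩
  have h3 := co_vec _ (wt_wt B i) α
  have h4 : co (ν q) (ν p - ν q) = -1 := by
    have h5 : co (ν q) (ν p - ν q) = co (ν q) (ν p) - co (ν q) (ν q) := by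
      unfold co
      rw [inner_sub_left]
      ring
    rw [h5, hco, h.rs.co_self (h.c3.mem q hq)]
    norm_num
  rw [hα, hi, h4] at h3
  have h5 : wt B i α = -1 := by exact_mod_cast h3.symm
  rw [h5]
  norm_num

/-- The multiplicity of zero. -/
theorem C3D.card_Z (h : C3D B D ℓ ν a) : Nat.card {i // vec (wt B i) = 0} ≤ 3 := by
  classical
  have hix : ∀ j : Fin 3, ∃ i, B.w i D = 1 ∧ vec (wt B i) = ν j := fun j => h.ex j j.2
  choose ix hix1 hix2 using hix
  have hal : ∀ j : Fin 3, ∃ α : H.root, vec (rt (rootSystem H) α) = ν j ∧ α.1 D = 1 :=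
    fun j => h.exists_al j.2
  choose al hal1 hal2 using hal
  have htr : ∀ j : Fin 3, ∃ e f : L, IsSl2Triple ((coroot (al j).1 : H) : L) e f ∧
      e ∈ rootSpace H (al j).1 ∧ f ∈ rootSpace H (-(al j).1) := fun j => exists_triple (al j)
  choose e f ht he hf using htr
  let T : ({i // vec (wt B i) = 0} → K) →ₗ[K] (Fin 3 → K) :=
    LinearMap.pi fun j => (Finsupp.lapply (ix j) : (I →₀ K) →ₗ[K] K) ∘ₗ (B.v.repr : V →ₗ[K] (I →₀ K)) ∘ₗ
      (toEnd K L V (e j)) ∘ₗ (Fintype.linearCombination K fun i : {i // vec (wt B i) = 0} => B.v i.1)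
  have hT : ∀ c j, T c j = B.v.repr ⁅e j, ∑ i : {i // vec (wt B i) = 0}, c i • B.v i.1⁆ (ix j) := by
    intro c j
    change B.v.repr (toEnd K L V (e j)
      (Fintype.linearCombination K (fun i : {i // vec (wt B i) = 0} => B.v i.1) c)) (ix j) = _
    rw [Fintype.linearCombination_apply, toEnd_apply_apply]
  have hinj : Function.Injective T := by
    rw [← LinearMap.ker_eq_bot, LinearMap.ker_eq_bot']
    intro c hc
    obtain ⟨u, hu⟩ : ∃ u, u = ∑ i : {i // vec (wt B i) = 0}, c i • B.v i.1 := ⟨_, rfl⟩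
    have huW : IsW H (fun _ => (0 : K)) u := by
      intro x
      rw [hu, lie_sum, Finset.smul_sum]
      refine Finset.sum_congr rfl fun i _ => ?_
      rw [lie_smul, B.lie_v, w_zero B i.2, LinearMap.zero_apply, zero_smul, zero_smul, smul_zero]
    have hek : ∀ j, ⁅e j, u⁆ = 0 := by
      intro j
      have h1 : IsW H (fun x => B.w (ix j) x) ⁅e j, u⁆ := by
        intro x
        rw [(huW.lie (he j)) x]
        congr 1
        change (al j).1 x + 0 = B.w (ix j) x
        rw [add_zero, w_root B (by rw [hix2, hal1]) x]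
      obtain ⟨r, hr⟩ := h1.eq_smul B (h.one_one (hix1 j))
      have h2 : r = 0 := by
        have h3 := congrFun hc j
        rw [hT, ← hu, hr] at h3
        simpa using h3
      rw [hr, h2, zero_smul]
    have hu0 : u = 0 := by
      refine lowest B h.hw h.hrt h.irr ⟨ix 0, hix1 0⟩ ?_ fun α hα z hz => ?_
      · have := huW D
        rw [this, zero_smul]
      · by_contra hz0
        have hg1 : ℓ (vec (rt (rootSystem H) α)) = 1 := by
          have h4 := h.lev.root (α := α) (k := 1) (by rw [hα, Int.cast_one])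
          rw [h4, Int.cast_one]
        obtain ⟨i, hi⟩ := (huW.lie hz).index B hz0
        have hi' : ∀ x, B.w i x = α.1 x := fun x => by rw [hi x, add_zero]
        have h5 := vec_of_root B hi'
        obtain ⟨p, hp, hp'⟩ := h.one i (by rw [hi' D, hα])
        have h6 : α = al ⟨p, hp⟩ := by
          refine Subtype.ext (Weight.ext fun x => ?_)
          rw [← hi' x, ← w_root B (i := i) (by rw [hp', hal1]) x]
        apply hz0
        subst h6
        obtain ⟨r, rfl⟩ := mem_line (he _) (ht _).e_ne_zero hz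
        rw [smul_lie, hek, smul_zero]
    have hli : LinearIndependent K fun i : {i // vec (wt B i) = 0} => B.v i.1 :=
      B.v.linearIndependent.comp _ Subtype.val_injective
    rw [Fintype.linearIndependent_iff] at hli
    funext i
    exact hli c (by rw [← hu, hu0]) i
  have h1 := LinearMap.finrank_le_finrank_of_injective hinj
  rw [finrank_fintype_fun_eq_card, finrank_fintype_fun_eq_card, Fintype.card_fin] at h1
  rw [Nat.card_eq_fintype_card]
  exact h1

/-- The number of weights of level zero. -/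
theorem C3D.card_zero (h : C3D B D ℓ ν a) :
    Nat.card {i // B.w i D = 0} = 6 + Nat.card {i // vec (wt B i) = 0} := by
  classical
  have hex : ∀ p : {p : Fin 3 × Fin 3 // p.1 ≠ p.2}, ∃ i, vec (wt B i) = ν p.1.1 - ν p.1.2 ∧ B.w i D = 0 ∧
      One B i := by
    rintro ⟨⟨p, q⟩, hpq⟩
    exact h.exists_pq p.2 q.2 (fun h1 => hpq (Fin.ext h1))
  choose g hg1 hg2 hg3 using hex
  let F : {p : Fin 3 × Fin 3 // p.1 ≠ p.2} ⊕ {i // vec (wt B i) = 0} → {i // B.w i D = 0} := fun s =>
    s.elim (fun p => ⟨g p, hg2 p⟩) (fun i => ⟨i.1, by rw [w_zero B i.2, LinearMap.zero_apply]⟩)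
  have hF : Function.Bijective F := by
    constructor
    · rintro (p | i) (p' | i') hh
      · have h1 : g p = g p' := congrArg Subtype.val hh
        have h2 : ν p.1.1 - ν p.1.2 = ν p'.1.1 - ν p'.1.2 := by rw [← hg1, ← hg1, h1]
        obtain ⟨h3, h4⟩ := h.c3.sub_inj p.1.1.2 p.1.2.2 p'.1.1.2 p'.1.2.2 (fun h5 => p.2 (Fin.ext h5)) h2
        congr 1
        exact Subtype.ext (Prod.ext (Fin.ext h3) (Fin.ext h4))
      · exfalso
        have h1 : g p = i'.1 := congrArg Subtype.val hh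
        have h2 := hg1 p
        rw [h1, i'.2] at h2
        exact h.c3.sub_ne p.1.1.2 p.1.2.2 (fun h5 => p.2 (Fin.ext h5)) h2.symm
      · exfalso
        have h1 : i.1 = g p' := congrArg Subtype.val hh
        have h2 := hg1 p'
        rw [← h1, i.2] at h2
        exact h.c3.sub_ne p'.1.1.2 p'.1.2.2 (fun h5 => p'.2 (Fin.ext h5)) h2.symm
      · have h1 := congrArg (fun x : {i // B.w i D = 0} => x.1) hh
        congr 1
        exact Subtype.ext h1
    · rintro ⟨i, hi⟩
      rcases h.level_zero hi with h1 | ⟨p, hp, q, hq, hpq, h1⟩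
      · exact ⟨Sum.inr ⟨i, h1⟩, rfl⟩
      · refine ⟨Sum.inl ⟨(⟨p, hp⟩, ⟨q, hq⟩), fun h5 => hpq (congrArg Fin.val h5)⟩, Subtype.ext ?_⟩
        change g _ = i
        symm
        apply hg3
        refine w_ext B ?_
        rw [h1, hg1]
  rw [← Nat.card_eq_of_bijective F hF, Nat.card_sum]
  congr 1
  rw [Nat.card_eq_fintype_card]
  decide

end PG
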