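import Pool.Agent.Helper81.PG.C3b

/-!
Project PG (MP_b8862a_ag), `s = 3`: in the configuration `C_3` the number of weights of level zero is `6`, `8`
or `9`.
-/

set_option linter.unusedSectionVars false

open Module LieModule LieAlgebra LieAlgebra.IsKilling MTP.MF PF PF.CC

namespace PG

variable {K : Type*} [Field K] [CharZero K] [IsAlgClosed K]
  {L : Type*} [LieRing L] [LieAlgebra K L] [FiniteDimensional K L] [IsKilling K L]
  {H : LieSubalgebra K L} [H.IsCartanSubalgebra]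
  {V : Type*} [AddCommGroup V] [Module K V] [FiniteDimensional K V]
  [LieRingModule L V] [LieModule K L V] {I : Type*} [Fintype I] (B : WB (V := V) H I) {D : H}
  {ω : LinearMap.BilinForm K V} {ℓ : EuclideanSpace ℝ H.root →ₗ[ℝ] ℝ} {ν : ℕ → EuclideanSpace ℝ H.root} {a : ℝ}

/-- The levels `1` and `-1` have the same number of weights. -/
theorem card_neg_one (hnd : ω.Nondegenerate) (hsk : ∀ (x : L) (u v : V), ω ⁅x, u⁆ v = - ω u ⁅x, v⁆) (D : H) :
    Nat.card {i // B.w i D = -1} = Nat.card {i // B.w i D = 1} := by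
  classical
  have h1 := B.sum_symm hnd hsk (fun χ => if χ D = 1 then 1 else 0)
  have h2 : ∑ i, (if (-B.w i) D = 1 then (1 : K) else 0) = ∑ i, (if B.w i D = -1 then (1 : K) else 0) := by
    refine Finset.sum_congr rfl fun i _ => ?_
    rw [LinearMap.neg_apply]
    by_cases h3 : B.w i D = -1
    · rw [if_pos h3, if_pos (by rw [h3, neg_neg])]
    · rw [if_neg h3, if_neg (fun h4 => h3 (by rw [← h4, neg_neg]))]
  have h1' : ∑ i, (if B.w i D = 1 then (1 : K) else 0) = ∑ i, (if (-B.w i) D = 1 then (1 : K) else 0) := h1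
  rw [h2, Finset.sum_boole, Finset.sum_boole] at h1'
  rw [Nat.card_eq_fintype_card, Nat.card_eq_fintype_card, Fintype.card_subtype, Fintype.card_subtype]
  exact_mod_cast h1'.symm

/-- The dimension in terms of the levels. -/
theorem card_levels (hw : ∀ i, Three (B.w i D)) :
    Fintype.card I = Nat.card {i // B.w i D = 1} + Nat.card {i // B.w i D = 0} + Nat.card {i // B.w i D = -1} := by
  classical
  rw [Nat.card_eq_fintype_card, Nat.card_eq_fintype_card, Nat.card_eq_fintype_card, Fintype.card_subtype,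
    Fintype.card_subtype, Fintype.card_subtype, Finset.card_filter, Finset.card_filter, Finset.card_filter,
    ← Finset.sum_add_distrib, ← Finset.sum_add_distrib, ← Finset.card_univ, Finset.card_eq_sum_ones]
  refine Finset.sum_congr rfl fun i _ => ?_
  have h1 : (1 : K) ≠ -1 := by
    intro h
    have h2 : (2 : K) = 0 := by linear_combination h
    norm_num at h2
  rcases hw i with h | h | h
  · rw [h, if_neg zero_ne_one, if_pos rfl, if_neg (fun h2 => by
      have h3 : (1 : K) = 0 := by linear_combination h2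
      exact one_ne_zero h3)]
  · rw [h, if_pos rfl, if_neg one_ne_zero, if_neg h1]
  · rw [h, if_neg h1.symm, if_neg (fun h2 => by
      have h3 : (1 : K) = 0 := by linear_combination -h2
      exact one_ne_zero h3), if_pos rfl]

variable {B}

theorem C3D.norm_X (h : C3D B D ℓ ν a) {x : EuclideanSpace ℝ H.root} (hx : x ∈ Xw B) :
    inner ℝ x x ≤ 4 * a := by
  have ha := h.c3.pos
  have h1 : ∀ y ∈ Xw B, ℓ y = 1 → inner ℝ y y ≤ 4 * a := by
    intro y hy hy1
    obtain ⟨i, rfl⟩ := (mem_Xw B).1 hy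
    obtain ⟨k, hk, -⟩ := (h.hw i).int
    have h2 := h.lev.weight B hk
    rw [hy1] at h2
    have h3 : k = 1 := by exact_mod_cast h2.symm
    rw [h3, Int.cast_one] at hk
    obtain ⟨p, hp, hp'⟩ := h.one i hk
    rw [hp', h.c3.self hp]
    linarith
  rcases h.lev.lev_X B h.hw hx with h2 | h2 | h2
  · obtain ⟨i, rfl⟩ := (mem_Xw B).1 hx
    obtain ⟨k, hk, -⟩ := (h.hw i).int
    have h3 := h.lev.weight B hk
    rw [h2] at h3
    have h4 : k = 0 := by exact_mod_cast h3.symm
    rw [h4, Int.cast_zero] at hk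
    rcases h.level_zero hk with h5 | ⟨p, hp, q, hq, hpq, h5⟩
    · rw [h5, inner_zero_left]
      linarith
    · rw [h5, h.c3.sub_self hp hq hpq]
      linarith
  · exact h1 x hx h2
  · have h3 := h1 (-x) (h.sat.neg x hx) (by rw [map_neg, h2, neg_neg])
    rwa [inner_neg_neg] at h3

theorem C3D.lev_Ph (h : C3D B D ℓ ν a) {y : EuclideanSpace ℝ H.root} (hy : y ∈ Ph (rootSystem H)) :
    ℓ y = 0 ∨ ℓ y = 1 ∨ ℓ y = -1 := by
  obtain ⟨α, rfl⟩ := (mem_Ph _).1 hy
  obtain ⟨k, hk, hk3⟩ := (h.hrt α).int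
  rw [h.lev.root hk]
  rcases hk3 with h2 | h2 | h2 <;> rw [h2] <;> simp

/-- The number of roots. -/
theorem C3D.card_root (h : C3D B D ℓ ν a) [(rootSystem H).IsIrreducible] : Fintype.card H.root ≤ 18 := by
  classical
  let σ : EuclideanSpace ℝ H.root := ν 0 + ν 1 + ν 2
  let F : (Fin 3 ⊕ Fin 3) ⊕ (Fin 3 ⊕ Fin 3) ⊕ {p : Fin 3 × Fin 3 // p.1 ≠ p.2} → EuclideanSpace ℝ H.root :=
    Sum.elim (Sum.elim (fun i => ν i) (fun i => σ - (2 : ℝ) • ν i))
      (Sum.elim (Sum.elim (fun i => -ν i) (fun i => -(σ - (2 : ℝ) • ν i))) (fun p => ν p.1.1 - ν p.1.2))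
  have hex : ∀ α : H.root, ∃ s, F s = vec (rt (rootSystem H) α) := by
    intro α
    have hα : vec (rt (rootSystem H) α) ∈ Ph (rootSystem H) := (mem_Ph _).2 ⟨α, rfl⟩
    rcases h.lev_Ph hα with h2 | h2 | h2
    · obtain ⟨p, hp, q, hq, hpq, h5⟩ := h.c3.zero _ hα h2
      exact ⟨Sum.inr (Sum.inr ⟨(⟨p, hp⟩, ⟨q, hq⟩), fun h6 => hpq (congrArg Fin.val h6)⟩), h5.symm⟩
    · obtain ⟨p, hp, h5 | h5⟩ := h.c3.one _ hα h2
      · exact ⟨Sum.inl (Sum.inl ⟨p, hp⟩), h5.symm⟩
      · exact ⟨Sum.inl (Sum.inr ⟨p, hp⟩), h5.symm⟩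
    · obtain ⟨p, hp, h5⟩ := h.c3.one _ (h.rs.neg_mem hα) (by rw [map_neg, h2, neg_neg])
      rcases h5 with h5 | h5
      · refine ⟨Sum.inr (Sum.inl (Sum.inl ⟨p, hp⟩)), ?_⟩
        change -ν p = _
        rw [← h5, neg_neg]
      · refine ⟨Sum.inr (Sum.inl (Sum.inr ⟨p, hp⟩)), ?_⟩
        change -(ν 0 + ν 1 + ν 2 - (2 : ℝ) • ν p) = _
        rw [← h5, neg_neg]
  choose g hg using hex
  have hinj : Function.Injective g := by
    intro α β hαβ
    exact rt_inj _ (vec_inj (by rw [← hg, ← hg, hαβ]))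
  have h1 := Fintype.card_le_of_injective g hinj
  have h2 : Fintype.card {p : Fin 3 × Fin 3 // p.1 ≠ p.2} = 6 := by decide
  rw [Fintype.card_sum, Fintype.card_sum, Fintype.card_sum, Fintype.card_sum, Fintype.card_fin, h2] at h1
  exact h1

/-- **The configuration `C_3`.** -/
theorem C3D.final (h : C3D B D ℓ ν a) [(rootSystem H).IsIrreducible]
    (hfaith : ∀ x : L, (∀ u : V, ⁅x, u⁆ = 0) → x = 0)
    (hnd : ω.Nondegenerate) (hsk : ∀ (x : L) (u v : V), ω ⁅x, u⁆ v = - ω u ⁅x, v⁆) :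
    Nat.card {i // B.w i D = 0} = 6 ∨ Nat.card {i // B.w i D = 0} = 8 ∨ Nat.card {i // B.w i D = 0} = 9 := by
  have h1 := h.card_zero
  have h2 := h.card_Z
  by_cases hz : Nat.card {i // vec (wt B i) = 0} = 1
  · exfalso
    have ha := h.c3.pos
    have h3 := card_levels B h.hw
    rw [card_neg_one B hnd hsk D, h.card, h1, hz] at h3
    have hI : Nonempty I := Fintype.card_pos_iff.1 (by omega)
    obtain ⟨α, i, k, hk, hle⟩ := PF.L.exists_large B h.irr hfaith (p := 13) (by norm_num) (by rw [h3]) hI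
    have hα : vec (rt (rootSystem H) α) ∈ Ph (rootSystem H) := (mem_Ph _).2 ⟨α, rfl⟩
    have hneg : ∀ y, ℓ (-y) = -ℓ y := fun y => map_neg ℓ y
    have hnα := h.c3.norm h.rs hneg (fun y hy => h.lev_Ph hy) hα
    have h4 : wt B i α = k := by
      have h5 : ((wt B i α : ℤ) : K) = k := by rw [← wt_spec, hk]
      exact_mod_cast h5
    have h5 : |k| ≤ 2 := by
      refine int_le_two ha hnα.1 (h.norm_X ((mem_Xw B).2 ⟨i, rfl⟩)) ?_
      rw [co_vec _ (wt_wt B i) α, h4]
    have h6 : ∀ g : H.root, |((rootSystem H).pairingIn ℤ g α : ℚ)| ≤ 2 := by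
      intro g
      have hg : vec (rt (rootSystem H) g) ∈ Ph (rootSystem H) := (mem_Ph _).2 ⟨g, rfl⟩
      have h7 : |rt (rootSystem H) g α| ≤ 2 :=
        int_le_two ha hnα.1 (h.c3.norm h.rs hneg (fun y hy => h.lev_Ph hy) hg).2
          (co_vec _ (wt_rt _ g) α)
      have h8 : |(rt (rootSystem H) g α : ℚ)| ≤ 2 := by exact_mod_cast h7
      exact h8
    have h7 : ∑ g : H.root, |((rootSystem H).pairingIn ℤ g α : ℚ)| ≤ 36 := by
      calc ∑ g : H.root, |((rootSystem H).pairingIn ℤ g α : ℚ)| ≤ ∑ g : H.root, (2 : ℚ) :=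
            Finset.sum_le_sum fun g _ => h6 g
        _ = 2 * Fintype.card H.root := by
            rw [Finset.sum_const, Finset.card_univ, nsmul_eq_mul]
            ring
        _ ≤ 2 * 18 := by
            have h8 : (Fintype.card H.root : ℚ) ≤ 18 := by exact_mod_cast h.card_root
            linarith
        _ = 36 := by norm_num
    have h8 : (k : ℚ) ≤ 2 := by
      have h9 : k ≤ 2 := (abs_le.1 h5).2
      exact_mod_cast h9
    push_cast at hle
    linarith
  · omega

end PG
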