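import Pool.Agent.Helper81.PG.C3c
import Pool.Agent.Helper2.PG.End

/-!
Project PG (MP_b8862a_ag), `s = 3`: the configuration `IsC3` of `Helper2/PG/End.lean`.
-/

set_option linter.unusedSectionVars false

open Module LieModule LieAlgebra LieAlgebra.IsKilling MTP.MF PF PF.CC

namespace PG

variable {K : Type*} [Field K] [CharZero K] [IsAlgClosed K]
  {L : Type*} [LieRing L] [LieAlgebra K L] [FiniteDimensional K L] [IsKilling K L]
  {H : LieSubalgebra K L} [H.IsCartanSubalgebra]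
  {V : Type*} [AddCommGroup V] [Module K V] [FiniteDimensional K V]
  [LieRingModule L V] [LieModule K L V] {I : Type*} [Fintype I] (B : WB (V := V) H I) {y : H}
  {ω : LinearMap.BilinForm K V} {ℓ : EuclideanSpace ℝ H.root →ₗ[ℝ] ℝ} {ν : ℕ → EuclideanSpace ℝ H.root}

theorem card_c3 [Nonempty I] [Nonempty H.root] [(rootSystem H).IsIrreducible]
    (hirr : ∀ W : Submodule K V, (∀ x : L, ∀ u ∈ W, ⁅x, u⁆ ∈ W) → W = ⊥ ∨ W = ⊤)
    (hfaith : ∀ x : L, (∀ u : V, ⁅x, u⁆ = 0) → x = 0)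
    (hnd : ω.Nondegenerate) (hsk : ∀ (x : L) (u v : V), ω ⁅x, u⁆ v = - ω u ⁅x, v⁆)
    (hℓ : IsLev y ℓ) (hrt : ∀ α : H.root, Three (α.1 y)) (hw : ∀ i, Three (B.w i y))
    (hs : Nat.card {i // B.w i y = 1} = 3)
    (hY : ∀ x, (x ∈ Xw B ∧ ℓ x = 1) ↔ ∃ j < 3, x = ν j)
    (hc : IsC3 (Ph (rootSystem H)) ℓ.toAddMonoidHom ν) :
    Nat.card {i // B.w i y = 0} = 6 ∨ Nat.card {i // B.w i y = 0} = 8 ∨ Nat.card {i // B.w i y = 0} = 9 := by
  obtain ⟨a, ha, hgram, hone, hzero⟩ := hc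
  have h : C3D B y ℓ ν a :=
    { lev := hℓ
      hw := hw
      hrt := hrt
      irr := hirr
      rs := PF.CC.rs _
      sat := PF.CC.sat B hirr hnd hsk
      c3 :=
        { pos := ha
          gram := hgram
          mem := fun i hi => ((hone (ν i)).2 ⟨i, hi, Or.inl rfl⟩).1
          one := fun z hz hz1 => (hone z).1 ⟨hz, hz1⟩
          zero := fun z hz hz0 => (hzero z).1 ⟨hz, hz0⟩ }
      one := by
        intro i hi
        refine (hY _).1 ⟨(mem_Xw B).2 ⟨i, rfl⟩, ?_⟩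
        have h1 := hℓ.weight B (i := i) (k := 1) (by rw [hi, Int.cast_one])
        rw [h1, Int.cast_one]
      ex := by
        intro j hj
        obtain ⟨h1, h2⟩ := (hY (ν j)).2 ⟨j, hj, rfl⟩
        obtain ⟨i, hi⟩ := (mem_Xw B).1 h1
        refine ⟨i, ?_, hi⟩
        obtain ⟨k, hk, -⟩ := (hw i).int
        have h3 := hℓ.weight B hk
        rw [hi, h2] at h3
        have h4 : k = 1 := by exact_mod_cast h3.symm
        rw [hk, h4, Int.cast_one]
      card := hs }
  exact h.final hfaith hnd hsk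

end PG
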